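import Mathlib
import Pool.Agent.Helper7.SignedSums

/-!
# Prime sums over `(n/(j+1), n/j]`
-/

set_option autoImplicit false

open Finset Filter Topology Nat Chebyshev

namespace Pool.Agent.Helper86.FS

open Pool.Agent.Helper7.Signed

/-- The sum of `log p` over the primes in `(n/(j+1), n/j]`. -/
noncomputable def SL (n j : ℕ) : ℝ :=
  ∑ p ∈ (Finset.Ioc (n / (j + 1)) (n / j)).filter Nat.Prime, Real.log p

theorem theta_div (n j : ℕ) : Chebyshev.theta ((n : ℝ) / j) =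
    ∑ p ∈ (Finset.Ioc 0 (n / j)).filter Nat.Prime, Real.log p := by
  rw [Chebyshev.theta, Nat.floor_div_natCast, Nat.floor_natCast]

theorem SL_eq (n j : ℕ) (hj : 1 ≤ j) : SL n j =
    Chebyshev.theta ((n : ℝ) / j) - Chebyshev.theta ((n : ℝ) / ((j + 1 : ℕ) : ℝ)) := by
  rw [theta_div, theta_div, SL, eq_sub_iff_add_eq]
  have h : n / (j + 1) ≤ n / j := Nat.div_le_div_left (by omega) (by omega)
  rw [sum_filter, sum_filter, sum_filter, add_comm]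
  exact Finset.sum_Ioc_consecutive _ (Nat.zero_le _) h

theorem theta_close (j : ℕ) (hj : 1 ≤ j) (η : ℝ) (hη : 0 < η) : ∀ᶠ n : ℕ in atTop,
    |Chebyshev.theta ((n : ℝ) / j) - (n : ℝ) / j| ≤ η * n := by
  have hj' : (0 : ℝ) < j := by exact_mod_cast hj
  have h2 : Tendsto (fun n : ℕ => Chebyshev.theta ((n : ℝ) / j) / ((n : ℝ) / j)) atTop (𝓝 1) :=
    theta_tendsto.comp (tendsto_natCast_atTop_atTop.atTop_div_const hj')
  have h3 := (Metric.tendsto_nhds.1 h2) η hη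
  filter_upwards [h3, eventually_gt_atTop 0] with n hn hn0
  have hn0' : (0 : ℝ) < n := by exact_mod_cast hn0
  rw [Real.dist_eq] at hn
  have hx : (0 : ℝ) < (n : ℝ) / j := by positivity
  have e : Chebyshev.theta ((n : ℝ) / j) - (n : ℝ) / j =
      (Chebyshev.theta ((n : ℝ) / j) / ((n : ℝ) / j) - 1) * ((n : ℝ) / j) := by
    rw [sub_mul, div_mul_cancel₀ _ hx.ne', one_mul]
  have hle : (n : ℝ) / j ≤ n := div_le_self hn0'.le (by exact_mod_cast hj)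
  rw [e, abs_mul, abs_of_pos hx]
  calc _ ≤ η * ((n : ℝ) / j) := mul_le_mul_of_nonneg_right hn.le hx.le
    _ ≤ η * n := mul_le_mul_of_nonneg_left hle hη.le

theorem SL_close (j : ℕ) (hj : 1 ≤ j) (η : ℝ) (hη : 0 < η) : ∀ᶠ n : ℕ in atTop,
    |SL n j - ((n : ℝ) / j - (n : ℝ) / ((j + 1 : ℕ) : ℝ))| ≤ 2 * η * n := by
  filter_upwards [theta_close j hj η hη, theta_close (j + 1) (by omega) η hη] with n h1 h2
  rw [SL_eq n j hj]
  rw [abs_le] at h1 h2 ⊢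
  constructor <;> linarith [h1.1, h1.2, h2.1, h2.2]

/-- All the asymptotic facts used below. -/
theorem asy (η : ℝ) (hη : 0 < η) : ∀ᶠ n : ℕ in atTop, 20 ≤ n ∧ Real.log 2 ≤ η * n ∧
    Real.log (lcmUpto n) ≤ (1 + η) * n ∧
    (1 / 2 - 2 * η) * n ≤ SL n 1 ∧ SL n 1 ≤ (1 / 2 + 2 * η) * n ∧
    (1 / 6 - 2 * η) * n ≤ SL n 2 ∧ SL n 2 ≤ (1 / 6 + 2 * η) * n ∧
    (1 / 12 - 2 * η) * n ≤ SL n 3 ∧ SL n 3 ≤ (1 / 12 + 2 * η) * n := by
  have h0 : ∀ᶠ n : ℕ in atTop, Real.log 2 / η ≤ (n : ℝ) :=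
    tendsto_natCast_atTop_atTop.eventually_ge_atTop _
  filter_upwards [eventually_ge_atTop 20, h0, lcm_le η hη, SL_close 1 le_rfl η hη,
    SL_close 2 (by norm_num) η hη, SL_close 3 (by norm_num) η hη] with n h1 h2 h3 h4 h5 h6
  rw [div_le_iff₀ hη] at h2
  rw [abs_le] at h4 h5 h6
  obtain ⟨h4a, h4b⟩ := h4
  obtain ⟨h5a, h5b⟩ := h5
  obtain ⟨h6a, h6b⟩ := h6
  norm_num at h4a h4b h5a h5b h6a h6b
  refine ⟨h1, by linarith, h3, ?_, ?_, ?_, ?_, ?_, ?_⟩ <;> linarith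

end Pool.Agent.Helper86.FS
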