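import Pool.Agent.Helper7.SignedSums

/-!
# Residues of the numerators modulo primes above `n / 9`
-/

set_option autoImplicit false

open Finset Nat Chebyshev

namespace Pool.Agent.Helper86.FS

open Pool.Agent.Helper7.Signed

/-- The sums `∑ i ∈ s, 840 / i`, `s ⊆ {1, ..., j}`. -/
def W (j : ℕ) : Finset ℕ := (Finset.Icc 1 j).powerset.image fun s => ∑ i ∈ s, 840 / i

theorem W_card1 : (W 1).card = 2 := by decide +kernel
theorem W_card2 : (W 2).card = 4 := by decide +kernel
theorem W_card3 : (W 3).card = 8 := by decide +kernel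
theorem W_card4 : (W 4).card = 16 := by decide +kernel
theorem W_card5 : (W 5).card = 32 := by decide +kernel
theorem W_card6 : (W 6).card = 52 := by decide +kernel
theorem W_card7 : (W 7).card = 104 := by decide +kernel
theorem W_card8 : (W 8).card = 208 := by decide +kernel

/-- Coefficients which take one of the two values `a k`, `a k + c` at the multiples `k` of primes
above `n / 9`. -/
def Two (n : ℕ) (c : ℤ) (a d : ℕ → ℤ) : Prop :=
  ∀ k ∈ Finset.Icc 1 n, (∃ p : ℕ, p.Prime ∧ p ∣ k ∧ n < 9 * p) → d k = a k ∨ d k = a k + c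

theorem A_res {n p j : ℕ} (hp : p.Prime) (hj1 : 1 ≤ j) (hj8 : j ≤ 8)
    (h1 : n < (j + 1) * p) (h2 : j * p ≤ n) (δ : ℕ → ℤ) :
    ((840 * A n δ : ℤ) : ZMod p) = (((∑ i ∈ Finset.Icc 1 j, ((840 / i : ℕ) : ℤ) * δ (i * p)) *
      ((lcmUpto n / p : ℕ) : ℤ) : ℤ) : ZMod p) := by
  -- the sum reduces to multiples of `p`
  have hA : ((A n δ : ℤ) : ZMod p) =
      ∑ i ∈ Finset.Icc 1 j, ((δ (i * p) * ((lcmUpto n / (i * p) : ℕ) : ℤ) : ℤ) : ZMod p) := by
    unfold A
    rw [Int.cast_sum]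
    have hsub : (Finset.Icc 1 j).image (fun i => i * p) ⊆ Finset.Icc 1 n := by
      intro k hk
      obtain ⟨i, hi, rfl⟩ := mem_image.1 hk
      rw [Finset.mem_Icc] at hi ⊢
      exact ⟨Nat.mul_pos (by omega) hp.pos, (Nat.mul_le_mul_right p hi.2).trans h2⟩
    rw [← sum_subset hsub, sum_image]
    · intro a _ b _ hab
      exact Nat.eq_of_mul_eq_mul_right hp.pos hab
    · intro k hk hk'
      have hpk : ¬ p ∣ k := by
        rintro ⟨c, rfl⟩
        apply hk'
        rw [mem_image]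
        refine ⟨c, ?_, mul_comm _ _⟩
        rw [Finset.mem_Icc] at hk ⊢
        constructor
        · rcases Nat.eq_zero_or_pos c with h | h
          · rw [h, mul_zero] at hk
            omega
          · exact h
        · by_contra hc
          have : (j + 1) * p ≤ p * c := by
            rw [mul_comm p c]
            exact Nat.mul_le_mul_right p (by omega)
          omega
      have hkL : k ∣ lcmUpto n := dvd_lcmUpto hk
      have hpL : p ∣ lcmUpto n := by
        refine dvd_lcmUpto (Finset.mem_Icc.2 ⟨hp.one_le, ?_⟩)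
        calc p = 1 * p := (one_mul p).symm
          _ ≤ j * p := Nat.mul_le_mul_right p hj1
          _ ≤ n := h2
      have h3 : p ∣ k * (lcmUpto n / k) := by rwa [Nat.mul_div_cancel' hkL]
      have h4 : p ∣ lcmUpto n / k := (hp.dvd_mul.1 h3).resolve_left hpk
      rw [Int.cast_mul, Int.cast_natCast, (ZMod.natCast_eq_zero_iff _ _).2 h4, mul_zero]
  rw [Int.cast_mul, hA, mul_sum, sum_mul, Int.cast_sum]
  refine sum_congr rfl fun i hi => ?_
  rw [Finset.mem_Icc] at hi
  have hi840 : i ∣ 840 := by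
    have : i ≤ 8 := hi.2.trans hj8
    have h1' := hi.1
    interval_cases i <;> norm_num
  have hipL : i * p ∣ lcmUpto n := by
    refine dvd_lcmUpto (Finset.mem_Icc.2 ⟨Nat.mul_pos (by omega) hp.pos, ?_⟩)
    exact (Nat.mul_le_mul_right p hi.2).trans h2
  have e1 : lcmUpto n / p = i * (lcmUpto n / (i * p)) := by
    obtain ⟨c, hc⟩ := hipL
    rw [hc, Nat.mul_div_cancel_left _ (Nat.mul_pos (by omega) hp.pos)]
    rw [show i * p * c = p * (i * c) by ring, Nat.mul_div_cancel_left _ hp.pos]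
  have e2 : (((840 / i : ℕ) : ℤ)) * (i : ℤ) = 840 := by
    exact_mod_cast Nat.div_mul_cancel hi840
  rw [← Int.cast_mul, e1, Nat.cast_mul]
  congr 1
  generalize ((840 / i : ℕ) : ℤ) = q at e2
  linear_combination (-(δ (i * p)) * ((lcmUpto n / (i * p) : ℕ) : ℤ)) * e2

theorem cls {n p j : ℕ} (hp : p.Prime) (hj8 : j ≤ 8)
    (h1 : n < (j + 1) * p) (h2 : j * p ≤ n) {c : ℤ} {a d : ℕ → ℤ} (hd : Two n c a d) :
    ∃ t ∈ W j, ∑ i ∈ Finset.Icc 1 j, ((840 / i : ℕ) : ℤ) * d (i * p) =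
      ∑ i ∈ Finset.Icc 1 j, ((840 / i : ℕ) : ℤ) * a (i * p) + c * (t : ℤ) := by
  classical
  refine ⟨∑ i ∈ (Finset.Icc 1 j).filter fun i => d (i * p) ≠ a (i * p), 840 / i, ?_, ?_⟩
  · rw [W, mem_image]
    exact ⟨_, mem_powerset.2 (filter_subset _ _), rfl⟩
  · rw [Nat.cast_sum, sum_filter, mul_sum, ← sum_add_distrib]
    refine sum_congr rfl fun i hi => ?_
    have hi' := Finset.mem_Icc.1 hi
    have hk : i * p ∈ Finset.Icc 1 n :=
      Finset.mem_Icc.2 ⟨Nat.mul_pos (by omega) hp.pos, (Nat.mul_le_mul_right p hi'.2).trans h2⟩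
    have h9 : n < 9 * p := h1.trans_le (Nat.mul_le_mul_right p (by omega))
    rcases hd (i * p) hk ⟨p, hp, dvd_mul_left _ _, h9⟩ with h | h
    · rw [if_neg (by rw [h]; simp), h]
      simp
    · by_cases h0 : d (i * p) = a (i * p)
      · rw [if_neg (by rw [h0]; simp), h0]
        simp
      · rw [if_pos h0, h]
        ring

theorem res_cardW {n p j : ℕ} (hp : p.Prime) (hj1 : 1 ≤ j) (hj8 : j ≤ 8) (h11 : 11 ≤ p)
    (h1 : n < (j + 1) * p) (h2 : j * p ≤ n) (c : ℤ) (a : ℕ → ℤ) (S : Finset ℤ)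
    (hS : ∀ b ∈ S, ∃ d, Two n c a d ∧ b = A n d) :
    (S.image fun b : ℤ => (b : ZMod p)).card ≤ (W j).card := by
  classical
  have : Fact p.Prime := ⟨hp⟩
  have h840 : ((840 : ℤ) : ZMod p) ≠ 0 := by
    intro h
    rw [ZMod.intCast_zmod_eq_zero_iff_dvd] at h
    have h' : p ∣ 840 := by exact_mod_cast h
    have h8 : p ∣ 2 * (2 * (2 * (3 * (5 * 7)))) := by norm_num; exact h'
    have key : ∀ q m : ℕ, 0 < q → q < 11 → p ∣ q * m → p ∣ m := by
      intro q m hq0 hq hd
      rcases hp.dvd_mul.1 hd with h9 | h9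
      · have := Nat.le_of_dvd hq0 h9
        omega
      · exact h9
    have h9 := key 2 _ (by norm_num) (by norm_num) h8
    have h10 := key 2 _ (by norm_num) (by norm_num) h9
    have h11' := key 2 _ (by norm_num) (by norm_num) h10
    have h12 := key 3 _ (by norm_num) (by norm_num) h11'
    have h13 := key 5 _ (by norm_num) (by norm_num) h12
    have := Nat.le_of_dvd (by norm_num) h13
    omega
  have e1 : ((S.image fun b : ℤ => (b : ZMod p)).image fun x : ZMod p =>
      ((840 : ℤ) : ZMod p) * x).card = (S.image fun b : ℤ => (b : ZMod p)).card :=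
    card_image_of_injective _ fun x y h => mul_left_cancel₀ h840 h
  rw [← e1]
  refine le_trans (card_le_card ?_) (card_image_le (s := W j)
    (f := fun t : ℕ => (((∑ i ∈ Finset.Icc 1 j, ((840 / i : ℕ) : ℤ) * a (i * p) + c * (t : ℤ)) *
      ((lcmUpto n / p : ℕ) : ℤ) : ℤ) : ZMod p)))
  intro x hx
  obtain ⟨y, hy, rfl⟩ := mem_image.1 hx
  obtain ⟨b, hb, rfl⟩ := mem_image.1 hy
  obtain ⟨d, hd, rfl⟩ := hS b hb
  obtain ⟨t, ht, ht'⟩ := cls hp hj8 h1 h2 hd
  refine mem_image.2 ⟨t, ht, ?_⟩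
  rw [← ht', ← A_res hp hj1 hj8 h1 h2, Int.cast_mul]

end Pool.Agent.Helper86.FS
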