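import Mathlib

/-!
# Gallagher's larger sieve for a finite set of integers
-/

set_option autoImplicit false

open Finset

namespace Pool.Agent.Helper86.FS

/-- Pairs with equal image. -/
theorem pairs_ge {α β : Type*} [DecidableEq α] [DecidableEq β] (A : Finset α) (f : α → β) {v : ℕ}
    (hv : (A.image f).card ≤ v) :
    (A.card : ℝ) ^ 2 ≤ v * (((A ×ˢ A).filter fun q => f q.1 = f q.2).card : ℝ) := by
  have h1 : A.card = ∑ c ∈ A.image f, (A.filter fun a => f a = c).card :=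
    card_eq_sum_card_fiberwise fun a ha => mem_image_of_mem f ha
  have h2 : ((A ×ˢ A).filter fun q => f q.1 = f q.2).card =
      ∑ c ∈ A.image f, (A.filter fun a => f a = c).card ^ 2 := by
    rw [card_eq_sum_card_fiberwise (f := fun q : α × α => f q.1) (t := A.image f)]
    · refine sum_congr rfl fun c _ => ?_
      rw [sq, ← card_product]
      congr 1
      ext ⟨a, b⟩
      simp only [mem_filter, mem_product]
      constructor
      · rintro ⟨⟨⟨h1, h2⟩, h3⟩, h4⟩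
        exact ⟨⟨h1, h4⟩, h2, h3 ▸ h4⟩
      · rintro ⟨⟨h1, h2⟩, h3, h4⟩
        exact ⟨⟨⟨h1, h3⟩, h2.trans h4.symm⟩, h2⟩
    · intro q hq
      have h3 := (mem_product.1 (mem_filter.1 hq).1).1
      exact mem_image_of_mem f h3
  have h3 : ((∑ c ∈ A.image f, (A.filter fun a => f a = c).card : ℕ) : ℝ) ^ 2 ≤
      (A.image f).card * ∑ c ∈ A.image f, ((A.filter fun a => f a = c).card : ℝ) ^ 2 := by
    push_cast
    exact sq_sum_le_card_mul_sum_sq
  rw [← h1] at h3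
  rw [h2]
  push_cast
  refine h3.trans ?_
  have h4 : ((A.image f).card : ℝ) ≤ v := by exact_mod_cast hv
  have h5 : 0 ≤ ∑ c ∈ A.image f, ((A.filter fun a => f a = c).card : ℝ) ^ 2 :=
    sum_nonneg fun _ _ => sq_nonneg _
  exact mul_le_mul_of_nonneg_right h4 h5

theorem sum_log_dvd (P : Finset ℕ) (hP : ∀ p ∈ P, p.Prime) {d : ℤ} (hd : d ≠ 0) :
    ∑ p ∈ P.filter (fun p : ℕ => (p : ℤ) ∣ d), Real.log p ≤ Real.log |(d : ℝ)| := by
  have h1 : (∏ p ∈ P.filter (fun p : ℕ => (p : ℤ) ∣ d), p) ∣ d.natAbs := by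
    refine Finset.prod_primes_dvd _ (fun p hp => ?_) fun p hp => ?_
    · exact (hP p (mem_filter.1 hp).1).prime
    · exact Int.natCast_dvd.1 (mem_filter.1 hp).2
  have h2 : (∏ p ∈ P.filter (fun p : ℕ => (p : ℤ) ∣ d), p) ≤ d.natAbs :=
    Nat.le_of_dvd (Int.natAbs_pos.2 hd) h1
  have h3 : 0 < ∏ p ∈ P.filter (fun p : ℕ => (p : ℤ) ∣ d), p :=
    prod_pos fun p hp => (hP p (mem_filter.1 hp).1).pos
  rw [← Real.log_prod (fun p hp => by
    have := (hP p (mem_filter.1 hp).1).pos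
    exact_mod_cast this.ne')]
  have h3' : (0 : ℝ) < ∏ p ∈ P.filter (fun p : ℕ => (p : ℤ) ∣ d), (p : ℝ) :=
    prod_pos fun p hp => by
      have := (hP p (mem_filter.1 hp).1).pos
      exact_mod_cast this
  refine Real.log_le_log h3' ?_
  have h4 : ((∏ p ∈ P.filter (fun p : ℕ => (p : ℤ) ∣ d), p : ℕ) : ℝ) ≤ (d.natAbs : ℝ) := by
    exact_mod_cast h2
  have h5 : (d.natAbs : ℝ) = |(d : ℝ)| := by
    rw [Nat.cast_natAbs, Int.cast_abs]
  rw [h5] at h4
  push_cast at h4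
  exact h4

/-- Larger sieve. -/
theorem larger_sieve (A : Finset ℤ) (P : Finset ℕ) (hP : ∀ p ∈ P, p.Prime) (v : ℕ → ℕ)
    (hv0 : ∀ p ∈ P, 0 < v p) (hv : ∀ p ∈ P, (A.image fun a : ℤ => (a : ZMod p)).card ≤ v p)
    {Y : ℝ} (hY : ∀ a ∈ A, ∀ b ∈ A, a ≠ b → |((a - b : ℤ) : ℝ)| ≤ Y) (hA : 0 < A.card) :
    ∑ p ∈ P, Real.log p * ((A.card : ℝ) / v p - 1) ≤ ((A.card : ℝ) - 1) * Real.log Y := by
  classical
  set Z : ℝ := (A.card : ℝ) with hZ
  have hZ0 : 0 < Z := by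
    rw [hZ]
    exact_mod_cast hA
  set D := (A ×ˢ A).filter fun q : ℤ × ℤ => q.1 ≠ q.2 with hD
  have hDcard : (D.card : ℝ) = Z * (Z - 1) := by
    have h1 : D = A.offDiag := by
      ext ⟨a, b⟩
      simp only [hD, mem_filter, mem_product, mem_offDiag]
      tauto
    rw [h1, offDiag_card, Nat.cast_sub (Nat.le_mul_self _)]
    push_cast
    ring
  -- upper bound
  have h1 : ∑ q ∈ D, ∑ p ∈ P.filter (fun p : ℕ => (p : ℤ) ∣ q.1 - q.2), Real.log p ≤
      Z * (Z - 1) * Real.log Y := by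
    rw [← hDcard]
    have : ∀ q ∈ D, ∑ p ∈ P.filter (fun p : ℕ => (p : ℤ) ∣ q.1 - q.2), Real.log p ≤
        Real.log Y := by
      intro q hq
      obtain ⟨hq1, hq2⟩ := mem_filter.1 hq
      obtain ⟨ha, hb⟩ := mem_product.1 hq1
      have hne : q.1 - q.2 ≠ 0 := sub_ne_zero.2 hq2
      refine (sum_log_dvd P hP hne).trans (Real.log_le_log ?_ (hY _ ha _ hb hq2))
      exact abs_pos.2 (by exact_mod_cast hne)
    calc _ ≤ ∑ _q ∈ D, Real.log Y := sum_le_sum this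
      _ = _ := by rw [sum_const, nsmul_eq_mul]
  -- lower bound
  have h2 : ∑ q ∈ D, ∑ p ∈ P.filter (fun p : ℕ => (p : ℤ) ∣ q.1 - q.2), Real.log p =
      ∑ p ∈ P, Real.log p * ((D.filter fun q => (p : ℤ) ∣ q.1 - q.2).card : ℝ) := by
    simp only [sum_filter]
    rw [sum_comm]
    refine sum_congr rfl fun p _ => ?_
    rw [← sum_filter, sum_const, nsmul_eq_mul, mul_comm]
  have h3 : ∀ p ∈ P, Real.log p * (Z * (Z / v p - 1)) ≤
      Real.log p * ((D.filter fun q => (p : ℤ) ∣ q.1 - q.2).card : ℝ) := by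
    intro p hp
    have hlog : 0 ≤ Real.log p := Real.log_natCast_nonneg p
    refine mul_le_mul_of_nonneg_left ?_ hlog
    have e1 := pairs_ge A (fun a : ℤ => (a : ZMod p)) (hv p hp)
    have e2 : ((A ×ˢ A).filter fun q : ℤ × ℤ => (q.1 : ZMod p) = (q.2 : ZMod p)).card =
        (D.filter fun q => (p : ℤ) ∣ q.1 - q.2).card + A.card := by
      have e3 : ((A ×ˢ A).filter fun q : ℤ × ℤ => (q.1 : ZMod p) = (q.2 : ZMod p)) =
          (D.filter fun q => (p : ℤ) ∣ q.1 - q.2) ∪ A.diag := by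
        ext ⟨a, b⟩
        simp only [hD, mem_filter, mem_product, mem_union, mem_diag]
        rw [ZMod.intCast_eq_intCast_iff_dvd_sub, dvd_sub_comm]
        constructor
        · rintro ⟨⟨h1, h2⟩, h3⟩
          by_cases h : a = b
          · exact Or.inr ⟨h1, h⟩
          · exact Or.inl ⟨⟨⟨h1, h2⟩, h⟩, h3⟩
        · rintro (⟨⟨⟨h1, h2⟩, h⟩, h3⟩ | ⟨h1, rfl⟩)
          · exact ⟨⟨h1, h2⟩, h3⟩
          · exact ⟨⟨h1, h1⟩, by simp⟩
      rw [e3, card_union_of_disjoint, diag_card]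
      rw [Finset.disjoint_left]
      rintro ⟨a, b⟩ h1 h2
      exact (mem_filter.1 (mem_filter.1 h1).1).2 (mem_diag.1 h2).2
    rw [e2] at e1
    push_cast at e1
    have hv' : (0 : ℝ) < v p := by exact_mod_cast hv0 p hp
    have e4 : Z ^ 2 / v p ≤ ((D.filter fun q => (p : ℤ) ∣ q.1 - q.2).card : ℝ) + Z := by
      rw [div_le_iff₀ hv']
      linarith
    have e5 : Z * (Z / v p - 1) = Z ^ 2 / v p - Z := by ring
    rw [e5]
    linarith
  have h4 : ∑ p ∈ P, Real.log p * (Z * (Z / v p - 1)) ≤ Z * (Z - 1) * Real.log Y := by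
    refine le_trans (sum_le_sum h3) ?_
    rw [← h2]
    exact h1
  have h5 : ∑ p ∈ P, Real.log p * (Z * (Z / v p - 1)) =
      Z * ∑ p ∈ P, Real.log p * (Z / v p - 1) := by
    rw [mul_sum]
    exact sum_congr rfl fun p _ => by ring
  rw [h5, mul_assoc] at h4
  exact le_of_mul_le_mul_left h4 hZ0

end Pool.Agent.Helper86.FS
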