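import Mathlib
import Pool.Agent.Helper86.FS.Sieve
import Pool.Agent.Helper86.FS.ClRes
import Pool.Agent.Helper86.FS.Asy

/-!
# Bounded clusters of subset sums of `1, 1/2, ..., 1/n`
-/

set_option autoImplicit false

open Finset Filter Topology Nat

namespace Pool.Agent.Helper86.FS

open Pool.Agent.Helper7.Signed

theorem split_tele (n : ℕ) (g : ℕ → ℝ) (J : ℕ) :
    ∑ p ∈ (Finset.Ioc (n / (J + 1)) n).filter Nat.Prime, Real.log p * g (n / p) =
      ∑ j ∈ Finset.Icc 1 J, g j * SL n j := by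
  induction J with
  | zero => simp
  | succ J ih =>
    have h1 : n / (J + 1 + 1) ≤ n / (J + 1) := Nat.div_le_div_left (by omega) (by omega)
    have h2 : n / (J + 1) ≤ n := Nat.div_le_self _ _
    rw [sum_filter, ← Finset.sum_Ioc_consecutive _ h1 h2, ← sum_filter, ← sum_filter, ih,
      Finset.sum_Icc_succ_top (by omega), add_comm]
    congr 1
    unfold SL
    rw [mul_sum]
    refine sum_congr rfl fun p hp => ?_
    have h := Finset.mem_Ioc.1 (mem_filter.1 hp).1
    have h4 : n < p * (J + 1 + 1) := (Nat.div_lt_iff_lt_mul (by omega)).1 h.1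
    have h5 : p * (J + 1) ≤ n := (Nat.le_div_iff_mul_le (by omega)).1 h.2
    have h3 : n / p = J + 1 :=
      Nat.div_eq_of_lt_le (by rw [mul_comm]; exact h5) (by rw [mul_comm]; exact h4)
    rw [h3, mul_comm]

theorem W_pos (j : ℕ) : 0 < (W j).card := by
  refine card_pos.2 ⟨0, ?_⟩
  rw [W, mem_image]
  exact ⟨∅, empty_mem_powerset _, by simp⟩

open Classical in
/-- The numerators of the sums in `[y, y + E]` with two-valued coefficients at the multiples of the
primes above `n / 9`. -/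
noncomputable def MM (n : ℕ) (c : ℤ) (a : ℕ → ℤ) (y E : ℝ) : Finset ℤ :=
  (Finset.Icc ⌈(lcmUpto n : ℝ) * y⌉ ⌊(lcmUpto n : ℝ) * (y + E)⌋).filter fun b : ℤ =>
    ∃ d, Two n c a d ∧ b = A n d

theorem mem_MM {n : ℕ} {c : ℤ} {a : ℕ → ℤ} {y E : ℝ} {b : ℤ} : b ∈ MM n c a y E ↔
    ((lcmUpto n : ℝ) * y ≤ b ∧ (b : ℝ) ≤ (lcmUpto n : ℝ) * (y + E)) ∧ ∃ d, Two n c a d ∧ b = A n d := by
  classical
  unfold MM
  rw [mem_filter, Finset.mem_Icc, Int.ceil_le, Int.le_floor]

/-- The sieve inequality for the numerators in `MM`. -/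
theorem sieve_MM {n : ℕ} (hn : 99 ≤ n) {c : ℤ} {a : ℕ → ℤ} {y E : ℝ}
    (h0 : 0 < (MM n c a y E).card) :
    ∑ j ∈ Finset.Icc 1 8, (((MM n c a y E).card : ℝ) / (W j).card - 1) * SL n j ≤
      (((MM n c a y E).card : ℝ) - 1) * Real.log (lcmUpto n * E) := by
  rw [← split_tele n (fun j => ((MM n c a y E).card : ℝ) / (W j).card - 1) 8]
  refine larger_sieve (MM n c a y E) _ (fun p hp => (mem_filter.1 hp).2)
    (fun p => (W (n / p)).card) (fun p _ => W_pos _) (fun p hp => ?_) (fun u hu v hv _ => ?_) h0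
  · have h := Finset.mem_Ioc.1 (mem_filter.1 hp).1
    have hpp := (mem_filter.1 hp).2
    have h9 : n < p * 9 := (Nat.div_lt_iff_lt_mul (by omega)).1 h.1
    refine res_cardW hpp ?_ ?_ (by omega) ?_ (Nat.div_mul_le_self _ _) c a _
      fun b hb => (mem_MM.1 hb).2
    · exact (Nat.le_div_iff_mul_le hpp.pos).2 (by omega)
    · have : n / p < 9 := (Nat.div_lt_iff_lt_mul hpp.pos).2 (by omega)
      omega
    · rw [mul_comm]
      exact Nat.lt_mul_div_succ _ hpp.pos
  · have h1 := (mem_MM.1 hu).1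
    have h2 := (mem_MM.1 hv).1
    rw [Int.cast_sub, abs_le]
    constructor <;> linarith [h1.1, h1.2, h2.1, h2.2]

theorem log_K : (0.693097 : ℝ) ≤ Real.log (19999 / 10000) := by
  have h1 : Real.log (19999 / 10000) = Real.log 2 + Real.log (19999 / 20000) := by
    rw [← Real.log_mul (by norm_num) (by norm_num)]
    norm_num
  have h2 := Real.one_sub_inv_le_log_of_pos (show (0 : ℝ) < 19999 / 20000 by norm_num)
  have h3 := Real.log_two_gt_d9
  rw [h1]
  norm_num at h2 h3 ⊢
  linarith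

theorem clus : ∀ᶠ n : ℕ in atTop, ∀ (c : ℤ) (a : ℕ → ℤ) (y : ℝ),
    ((MM n c a y (1 / (19999 / 10000) ^ n)).card : ℝ) ≤ 20000 := by
  have h8 : ∀ᶠ n : ℕ in atTop, ∀ j ∈ Finset.Icc 1 8,
      |SL n j - ((n : ℝ) / j - (n : ℝ) / ((j + 1 : ℕ) : ℝ))| ≤ 2 * (1 / 1000000) * n :=
    (Filter.eventually_all_finset _).2 fun j hj =>
      SL_close j (Finset.mem_Icc.1 hj).1 (1 / 1000000) (by norm_num)
  filter_upwards [h8, lcm_le (1 / 1000000) (by norm_num), eventually_ge_atTop 99] with n h8 hL hn c a y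
  have hn0 : (0 : ℝ) < n := by
    have : 0 < n := by omega
    exact_mod_cast this
  have hLp : (0 : ℝ) < lcmUpto n := by exact_mod_cast lcmUpto_pos n
  rcases Nat.eq_zero_or_pos (MM n c a y (1 / (19999 / 10000) ^ n)).card with h0 | h0
  · rw [h0]
    norm_num
  have hs := sieve_MM hn h0
  have hZ1 : (1 : ℝ) ≤ ((MM n c a y (1 / (19999 / 10000) ^ n)).card : ℝ) := by exact_mod_cast h0
  set Z : ℝ := ((MM n c a y (1 / (19999 / 10000) ^ n)).card : ℝ) with hZ
  have hlog : Real.log (lcmUpto n * (1 / (19999 / 10000) ^ n)) ≤ (1 + 1 / 1000000 - 0.693097) * n := by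
    rw [Real.log_mul hLp.ne' (by positivity), one_div, Real.log_inv, Real.log_pow]
    have h1 := mul_le_mul_of_nonneg_left log_K hn0.le
    linarith
  have hs2 := hs.trans (mul_le_mul_of_nonneg_left hlog (by linarith))
  have hlow : ∑ j ∈ Finset.Icc 1 8, (Z / (W j).card * (((n : ℝ) / j - (n : ℝ) / ((j + 1 : ℕ) : ℝ)) -
      2 * (1 / 1000000) * n) - (((n : ℝ) / j - (n : ℝ) / ((j + 1 : ℕ) : ℝ)) +
      2 * (1 / 1000000) * n)) ≤ ∑ j ∈ Finset.Icc 1 8, (Z / (W j).card - 1) * SL n j := by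
    refine sum_le_sum fun j hj => ?_
    have h1 := abs_le.1 (h8 j hj)
    have h2 : 0 ≤ Z / (W j).card := by positivity
    have h3 := mul_le_mul_of_nonneg_left (show ((n : ℝ) / j - (n : ℝ) / ((j + 1 : ℕ) : ℝ)) -
      2 * (1 / 1000000) * n ≤ SL n j by linarith [h1.1]) h2
    rw [sub_mul, one_mul]
    linarith [h1.2]
  rw [show (Finset.Icc 1 8 : Finset ℕ) = {1, 2, 3, 4, 5, 6, 7, 8} by decide] at hlow hs2
  have hfin := hlow.trans hs2
  rw [sum_insert (by decide), sum_insert (by decide), sum_insert (by decide), sum_insert (by decide),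
    sum_insert (by decide), sum_insert (by decide), sum_insert (by decide), sum_singleton,
    W_card1, W_card2, W_card3, W_card4, W_card5, W_card6, W_card7, W_card8] at hfin
  norm_num at hfin
  by_contra hc
  push Not at hc
  nlinarith

end Pool.Agent.Helper86.FS
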