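import Mathlib
import Pool.Agent.Helper86.FS.ClFin

/-!
# Bounded clusters of sums of reciprocals: all `n`
-/

set_option autoImplicit false

open Finset Filter Topology Nat

namespace Pool.Agent.Helper86.FS

open Pool.Agent.Helper7.Signed

theorem encard_le_MM (n : ℕ) (c : ℤ) (a : ℕ → ℤ) (y E : ℝ) :
    {x : ℝ | y ≤ x ∧ x ≤ y + E ∧ ∃ d : ℕ → ℤ,
      (∀ k ∈ Finset.Icc 1 n, (∃ p : ℕ, p.Prime ∧ p ∣ k ∧ n < 9 * p) →
        d k = a k ∨ d k = a k + c) ∧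
      x = ∑ k ∈ Finset.Icc 1 n, (d k : ℝ) / k}.encard ≤ ((MM n c a y E).card : ℕ∞) := by
  classical
  have hLp : (0 : ℝ) < lcmUpto n := by exact_mod_cast lcmUpto_pos n
  have hsub : {x : ℝ | y ≤ x ∧ x ≤ y + E ∧ ∃ d : ℕ → ℤ,
      (∀ k ∈ Finset.Icc 1 n, (∃ p : ℕ, p.Prime ∧ p ∣ k ∧ n < 9 * p) →
        d k = a k ∨ d k = a k + c) ∧
      x = ∑ k ∈ Finset.Icc 1 n, (d k : ℝ) / k} ⊆
      ((MM n c a y E).image fun b : ℤ => (b : ℝ) / lcmUpto n : Finset ℝ) := by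
    rintro x ⟨h1, h2, d, hd, hx⟩
    have hA : (A n d : ℝ) = (lcmUpto n : ℝ) * x := by rw [A_eq, hx]; rfl
    rw [mem_coe, mem_image]
    refine ⟨A n d, mem_MM.2 ⟨⟨?_, ?_⟩, d, hd, rfl⟩, ?_⟩
    · rw [hA]
      exact mul_le_mul_of_nonneg_left h1 hLp.le
    · rw [hA]
      exact mul_le_mul_of_nonneg_left h2 hLp.le
    · rw [hA, mul_div_cancel_left₀ _ hLp.ne']
  refine (Set.encard_le_encard hsub).trans ?_
  rw [Set.encard_coe_eq_coe_finsetCard]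
  exact Nat.cast_le.2 Finset.card_image_le

theorem card_MM_le (n : ℕ) (c : ℤ) (a : ℕ → ℤ) (y E : ℝ) (hE : E ≤ 1) :
    (MM n c a y E).card ≤ lcmUpto n + 1 := by
  classical
  refine (Finset.card_filter_le _ _).trans ?_
  rw [Int.card_Icc, Int.toNat_le]
  have h1 := Int.floor_le ((lcmUpto n : ℝ) * (y + E))
  have h2 := Int.le_ceil ((lcmUpto n : ℝ) * y)
  have h3 : (lcmUpto n : ℝ) * E ≤ lcmUpto n := mul_le_of_le_one_right (Nat.cast_nonneg _) hE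
  have h4 : ((⌊(lcmUpto n : ℝ) * (y + E)⌋ + 1 - ⌈(lcmUpto n : ℝ) * y⌉ : ℤ) : ℝ) ≤
      ((lcmUpto n + 1 : ℕ) : ℤ) := by
    push_cast
    linarith
  exact_mod_cast h4

theorem lcmUpto_mono {m n : ℕ} (h : m ≤ n) : lcmUpto m ≤ lcmUpto n := by
  refine Nat.le_of_dvd (lcmUpto_pos n) ?_
  exact Finset.lcm_dvd fun k hk => dvd_lcmUpto
    (Finset.mem_Icc.2 ⟨(Finset.mem_Icc.1 hk).1, (Finset.mem_Icc.1 hk).2.trans h⟩)

/-- There is `C` such that for every `n` every interval of length `1.9999 ^ (-n)` contains at most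
`C` different sums. -/
theorem clusters : ∃ C : ℕ, ∀ (n : ℕ) (c : ℤ) (a : ℕ → ℤ) (y : ℝ),
    {x : ℝ | y ≤ x ∧ x ≤ y + 1 / (19999 / 10000) ^ n ∧ ∃ d : ℕ → ℤ,
      (∀ k ∈ Finset.Icc 1 n, (∃ p : ℕ, p.Prime ∧ p ∣ k ∧ n < 9 * p) →
        d k = a k ∨ d k = a k + c) ∧
      x = ∑ k ∈ Finset.Icc 1 n, (d k : ℝ) / k}.encard ≤ C := by
  obtain ⟨N, hN⟩ := eventually_atTop.1 clus
  refine ⟨max 20000 (lcmUpto N + 1), fun n c a y => (encard_le_MM n c a y _).trans ?_⟩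
  rcases le_total N n with h | h
  · have h1 := hN n h c a y
    have h2 : (MM n c a y (1 / (19999 / 10000) ^ n)).card ≤ 20000 := by exact_mod_cast h1
    exact_mod_cast h2.trans (le_max_left _ _)
  · have hE : (1 : ℝ) / (19999 / 10000) ^ n ≤ 1 := by
      rw [div_le_one (by positivity)]
      exact one_le_pow₀ (by norm_num)
    have h1 := card_MM_le n c a y _ hE
    have h2 : lcmUpto n + 1 ≤ lcmUpto N + 1 := Nat.add_le_add_right (lcmUpto_mono h) 1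
    exact_mod_cast (h1.trans h2).trans (le_max_right _ _)

end Pool.Agent.Helper86.FS
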