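import Pool.Agent.Helper7.SignedSums

/-!
# Residues of the numerators modulo primes above `n / 4`
-/

set_option autoImplicit false

open Finset Nat Chebyshev

namespace Pool.Agent.Helper86.FS

open Pool.Agent.Helper7.Signed

/-- The possible values of `6 δ_p + 3 δ_{2p} + 2 δ_{3p}`. -/
def TT (j : ℕ) : Finset ℤ :=
  (((({-1, 0, 1} : Finset ℤ) ×ˢ ({-1, 0, 1} : Finset ℤ) ×ˢ ({-1, 0, 1} : Finset ℤ)).filter
    fun q => (j < 2 → q.2.1 = 0) ∧ (j < 3 → q.2.2 = 0))).image
    fun q => 6 * q.1 + 3 * q.2.1 + 2 * q.2.2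

theorem TT_card1 : (TT 1).card = 3 := by decide
theorem TT_card2 : (TT 2).card = 7 := by decide
theorem TT_card3 : (TT 3).card = 21 := by decide

theorem six_A {n p j : ℕ} (hp : p.Prime) (hj1 : 1 ≤ j) (hj3 : j ≤ 3) (h5 : 5 ≤ p)
    (h1 : n < (j + 1) * p) (h2 : j * p ≤ n) {δ : ℕ → ℤ} (hδ : Adm δ) :
    ∃ t ∈ TT j, ((6 * A n δ : ℤ) : ZMod p) = ((t * ((lcmUpto n / p : ℕ) : ℤ) : ℤ) : ZMod p) := by
  have hadm : ∀ k, δ k ∈ ({-1, 0, 1} : Finset ℤ) := fun k => by
    rcases hδ k with h | h | h <;> simp [h]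
  -- the sum reduces to multiples of `p`
  have hA : ((A n δ : ℤ) : ZMod p) =
      ∑ i ∈ Finset.Icc 1 j, ((δ (i * p) * ((lcmUpto n / (i * p) : ℕ) : ℤ) : ℤ) : ZMod p) := by
    unfold A
    rw [Int.cast_sum]
    have hsub : (Finset.Icc 1 j).image (fun i => i * p) ⊆ Finset.Icc 1 n := by
      intro k hk
      obtain ⟨i, hi, rfl⟩ := mem_image.1 hk
      rw [Finset.mem_Icc] at hi ⊢
      exact ⟨Nat.mul_pos (by omega) hp.pos, (Nat.mul_le_mul_right p hi.2).trans h2⟩
    rw [← sum_subset hsub, sum_image]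
    · intro a _ b _ hab
      exact Nat.eq_of_mul_eq_mul_right hp.pos hab
    · intro k hk hk'
      have hpk : ¬ p ∣ k := by
        rintro ⟨c, rfl⟩
        apply hk'
        rw [mem_image]
        refine ⟨c, ?_, mul_comm _ _⟩
        rw [Finset.mem_Icc] at hk ⊢
        constructor
        · rcases Nat.eq_zero_or_pos c with h | h
          · rw [h, mul_zero] at hk
            omega
          · exact h
        · by_contra hc
          have : (j + 1) * p ≤ p * c := by
            rw [mul_comm p c]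
            exact Nat.mul_le_mul_right p (by omega)
          omega
      have hkL : k ∣ lcmUpto n := dvd_lcmUpto hk
      have hpL : p ∣ lcmUpto n := by
        refine dvd_lcmUpto (Finset.mem_Icc.2 ⟨hp.one_le, ?_⟩)
        calc p = 1 * p := (one_mul p).symm
          _ ≤ j * p := Nat.mul_le_mul_right p hj1
          _ ≤ n := h2
      have h3 : p ∣ k * (lcmUpto n / k) := by rwa [Nat.mul_div_cancel' hkL]
      have h4 : p ∣ lcmUpto n / k := (hp.dvd_mul.1 h3).resolve_left hpk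
      rw [Int.cast_mul, Int.cast_natCast, (ZMod.natCast_eq_zero_iff _ _).2 h4, mul_zero]
  -- multiply by six
  have hdiv : ∀ i ∈ Finset.Icc 1 j, ((6 * (δ (i * p) * ((lcmUpto n / (i * p) : ℕ) : ℤ)) : ℤ)) =
      (((6 / i : ℕ) : ℤ) * δ (i * p)) * ((lcmUpto n / p : ℕ) : ℤ) := by
    intro i hi
    rw [Finset.mem_Icc] at hi
    have hi6 : i ∣ 6 := by
      have : i ≤ 3 := hi.2.trans hj3
      interval_cases i <;> omega
    have hipL : i * p ∣ lcmUpto n := by
      refine dvd_lcmUpto (Finset.mem_Icc.2 ⟨Nat.mul_pos (by omega) hp.pos, ?_⟩)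
      exact (Nat.mul_le_mul_right p hi.2).trans h2
    have e1 : lcmUpto n / p = i * (lcmUpto n / (i * p)) := by
      obtain ⟨c, hc⟩ := hipL
      rw [hc]
      rw [Nat.mul_div_cancel_left _ (Nat.mul_pos (by omega) hp.pos)]
      have : i * p * c = (i * c) * p := by ring
      rw [this, Nat.mul_div_cancel _ hp.pos]
    have e2 : (6 / i) * i = 6 := Nat.div_mul_cancel hi6
    rw [e1]
    generalize lcmUpto n / (i * p) = c
    generalize 6 / i = d at e2
    have e3 : (d : ℤ) * (i : ℤ) = 6 := by exact_mod_cast e2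
    rw [Nat.cast_mul]
    linear_combination (-(δ (i * p)) * (c : ℤ)) * e3
  have h6 : ((6 * A n δ : ℤ) : ZMod p) = (((∑ i ∈ Finset.Icc 1 j,
      ((6 / i : ℕ) : ℤ) * δ (i * p)) * ((lcmUpto n / p : ℕ) : ℤ) : ℤ) : ZMod p) := by
    rw [Int.cast_mul, hA, mul_sum, sum_mul, Int.cast_sum]
    refine sum_congr rfl fun i hi => ?_
    rw [← hdiv i hi, Int.cast_mul 6]
  refine ⟨_, ?_, h6⟩
  unfold TT
  rw [mem_image]
  interval_cases j
  · refine ⟨(δ p, 0, 0), ?_, ?_⟩
    · simp only [mem_filter, mem_product]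
      exact ⟨⟨hadm _, by simp, by simp⟩, by simp⟩
    · simp
  · refine ⟨(δ p, δ (2 * p), 0), ?_, ?_⟩
    · simp only [mem_filter, mem_product]
      exact ⟨⟨hadm _, hadm _, by simp⟩, by simp⟩
    · rw [show Finset.Icc 1 2 = {1, 2} by rfl, sum_insert (by simp), sum_singleton]
      simp
  · refine ⟨(δ p, δ (2 * p), δ (3 * p)), ?_, ?_⟩
    · simp only [mem_filter, mem_product]
      exact ⟨⟨hadm _, hadm _, hadm _⟩, by simp⟩
    · rw [show Finset.Icc 1 3 = {1, 2, 3} by rfl, sum_insert (by simp), sum_insert (by simp),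
        sum_singleton]
      simp
      ring

theorem res_card {n p j : ℕ} (hp : p.Prime) (hj1 : 1 ≤ j) (hj3 : j ≤ 3) (h5 : 5 ≤ p)
    (h1 : n < (j + 1) * p) (h2 : j * p ≤ n) (B : Finset ℤ) (hB : ∀ a ∈ B, ∃ δ, Adm δ ∧ a = A n δ) :
    (B.image fun a : ℤ => (a : ZMod p)).card ≤ (TT j).card := by
  classical
  have : Fact p.Prime := ⟨hp⟩
  have h6 : ((6 : ℤ) : ZMod p) ≠ 0 := by
    intro h
    rw [ZMod.intCast_zmod_eq_zero_iff_dvd] at h
    have h7 : p ∣ 6 := by exact_mod_cast h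
    have h8 : p ∣ 2 * 3 := by norm_num; exact h7
    rcases hp.dvd_mul.1 h8 with h9 | h9
    · have := Nat.le_of_dvd (by norm_num) h9
      omega
    · have := Nat.le_of_dvd (by norm_num) h9
      omega
  have e1 : ((B.image fun a : ℤ => (a : ZMod p)).image fun x : ZMod p => ((6 : ℤ) : ZMod p) * x).card
      = (B.image fun a : ℤ => (a : ZMod p)).card :=
    card_image_of_injective _ fun x y h => mul_left_cancel₀ h6 h
  rw [← e1]
  refine le_trans (card_le_card ?_) (card_image_le (s := TT j)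
    (f := fun t : ℤ => ((t * ((lcmUpto n / p : ℕ) : ℤ) : ℤ) : ZMod p)))
  intro x hx
  obtain ⟨y, hy, rfl⟩ := mem_image.1 hx
  obtain ⟨a, ha, rfl⟩ := mem_image.1 hy
  obtain ⟨δ, hδ, rfl⟩ := hB a ha
  obtain ⟨t, ht, ht'⟩ := six_A hp hj1 hj3 h5 h1 h2 hδ
  refine mem_image.2 ⟨t, ht, ?_⟩
  rw [← ht', Int.cast_mul]

end Pool.Agent.Helper86.FS
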