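import Mathlib
import Pool.Agent.Helper86.FS.Sieve
import Pool.Agent.Helper86.FS.Res
import Pool.Agent.Helper86.FS.Asy

/-!
# Few small signed sums
-/

set_option autoImplicit false

open Finset Filter Topology Nat

namespace Pool.Agent.Helper86.FS

open Pool.Agent.Helper7.Signed

/-- The number of classes allowed for the prime `p`. -/
def vv (n p : ℕ) : ℕ := if p ≤ n / 3 then 21 else if p ≤ n / 2 then 7 else 3

theorem vv_pos (n p : ℕ) : 0 < vv n p := by
  unfold vv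
  split_ifs <;> norm_num

theorem vv_card {n p : ℕ} (hn : 20 ≤ n) (hp : p.Prime) (h1 : n / 4 < p) (h2 : p ≤ n)
    (B : Finset ℤ) (hB : ∀ a ∈ B, ∃ δ, Adm δ ∧ a = A n δ) :
    (B.image fun a : ℤ => (a : ZMod p)).card ≤ vv n p := by
  have h5 : 5 ≤ p := by omega
  unfold vv
  split_ifs with h3 h4
  · rw [← TT_card3]
    exact res_card hp (by norm_num) le_rfl h5 (by omega) (by omega) B hB
  · rw [← TT_card2]
    exact res_card hp (by norm_num) (by norm_num) h5 (by omega) (by omega) B hB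
  · rw [← TT_card1]
    exact res_card hp le_rfl (by norm_num) h5 (by omega) (by omega) B hB

theorem split_sum (n : ℕ) (g : ℝ) :
    ∑ p ∈ (Finset.Ioc (n / 4) n).filter Nat.Prime, Real.log p * (g / (vv n p : ℝ) - 1) =
      SL n 3 * (g / 21 - 1) + SL n 2 * (g / 7 - 1) + SL n 1 * (g / 3 - 1) := by
  have h43 : n / 4 ≤ n / 3 := Nat.div_le_div_left (by omega) (by omega)
  have h32 : n / 3 ≤ n / 2 := Nat.div_le_div_left (by omega) (by omega)
  have h21 : n / 2 ≤ n := Nat.div_le_self _ _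
  rw [sum_filter, ← Finset.sum_Ioc_consecutive _ h43 (h32.trans h21),
    ← Finset.sum_Ioc_consecutive _ h32 h21, ← sum_filter, ← sum_filter, ← sum_filter, ← add_assoc]
  unfold SL
  rw [Nat.div_one, sum_mul, sum_mul, sum_mul]
  congr 1
  · congr 1
    · refine sum_congr rfl fun p hp => ?_
      have h := Finset.mem_Ioc.1 (mem_filter.1 hp).1
      rw [vv, if_pos h.2]
      norm_num
    · refine sum_congr rfl fun p hp => ?_
      have h := Finset.mem_Ioc.1 (mem_filter.1 hp).1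
      rw [vv, if_neg (by omega), if_pos h.2]
      norm_num
  · refine sum_congr rfl fun p hp => ?_
    have h := Finset.mem_Ioc.1 (mem_filter.1 hp).1
    rw [vv, if_neg (by omega), if_neg (by omega)]
    norm_num

open Classical in
/-- The numerators of the sums of absolute value at most `E`. -/
noncomputable def NN (n : ℕ) (E : ℝ) : Finset ℤ :=
  (Finset.Icc (-(lcmUpto n : ℤ)) (lcmUpto n)).filter fun a : ℤ =>
    (∃ δ, Adm δ ∧ a = A n δ) ∧ |(a : ℝ)| ≤ lcmUpto n * E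

theorem mem_NN {n : ℕ} {E : ℝ} (hE : E ≤ 1) {a : ℤ} :
    a ∈ NN n E ↔ (∃ δ, Adm δ ∧ a = A n δ) ∧ |(a : ℝ)| ≤ lcmUpto n * E := by
  classical
  unfold NN
  rw [mem_filter]
  refine ⟨fun h => h.2, fun h => ⟨?_, h⟩⟩
  have h1 : |(a : ℝ)| ≤ lcmUpto n := by
    refine h.2.trans ?_
    have h2 : (0 : ℝ) ≤ lcmUpto n := Nat.cast_nonneg _
    nlinarith
  rw [Finset.mem_Icc, ← abs_le]
  exact_mod_cast h1

theorem zero_mem {n : ℕ} {E : ℝ} (hE0 : 0 ≤ E) (hE : E ≤ 1) : (0 : ℤ) ∈ NN n E := by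
  rw [mem_NN hE]
  refine ⟨⟨fun _ => 0, fun _ => Or.inr (Or.inl rfl), ?_⟩, ?_⟩
  · simp [A]
  · simp only [Int.cast_zero, abs_zero]
    positivity

theorem neg_mem {n : ℕ} {E : ℝ} (hE : E ≤ 1) {a : ℤ} (ha : a ∈ NN n E) : -a ∈ NN n E := by
  rw [mem_NN hE] at ha ⊢
  obtain ⟨⟨δ, hδ, rfl⟩, h⟩ := ha
  refine ⟨⟨fun k => -δ k, fun k => ?_, ?_⟩, ?_⟩
  · rcases hδ k with h1 | h1 | h1 <;> simp [h1]
  · simp [A, sum_neg_distrib]
  · rw [Int.cast_neg, abs_neg]
    exact h

theorem card_NN {n : ℕ} {E : ℝ} (hE0 : 0 ≤ E) (hE : E ≤ 1) :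
    2 * ((NN n E).filter (0 < ·)).card + 1 ≤ (NN n E).card := by
  classical
  have h1 : ((NN n E).filter (· < 0)).card = ((NN n E).filter (0 < ·)).card := by
    refine card_bij (fun a _ => -a) (fun a ha => ?_) (fun a _ b _ h => neg_injective h)
      (fun b hb => ?_)
    · rw [mem_filter] at ha ⊢
      exact ⟨neg_mem hE ha.1, by simpa using ha.2⟩
    · rw [mem_filter] at hb
      exact ⟨-b, by rw [mem_filter]; exact ⟨neg_mem hE hb.1, by simpa using hb.2⟩, neg_neg b⟩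
  have h2 : ({0} : Finset ℤ) ∪ ((NN n E).filter (· < 0) ∪ (NN n E).filter (0 < ·)) ⊆ NN n E := by
    intro a ha
    simp only [mem_union, mem_singleton, mem_filter] at ha
    rcases ha with rfl | h | h
    · exact zero_mem hE0 hE
    · exact h.1
    · exact h.1
  have h3 : Disjoint ((NN n E).filter (· < 0)) ((NN n E).filter (0 < ·)) := by
    rw [Finset.disjoint_left]
    intro a ha hb
    have := (mem_filter.1 ha).2
    have := (mem_filter.1 hb).2
    omega
  have h4 : Disjoint ({0} : Finset ℤ) ((NN n E).filter (· < 0) ∪ (NN n E).filter (0 < ·)) := by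
    rw [Finset.disjoint_singleton_left]
    simp
  have h5 := card_le_card h2
  rw [card_union_of_disjoint h4, card_union_of_disjoint h3, card_singleton, h1] at h5
  omega

/-- The sieve inequality for the small numerators. -/
theorem sieve_NN {n : ℕ} (hn : 20 ≤ n) {E : ℝ} (hE0 : 0 < E) (hE : E ≤ 1) :
    SL n 3 * ((NN n E).card / 21 - 1) + SL n 2 * ((NN n E).card / 7 - 1) +
      SL n 1 * ((NN n E).card / 3 - 1) ≤
      ((NN n E).card - 1) * Real.log (2 * (lcmUpto n * E)) := by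
  rw [← split_sum]
  refine larger_sieve (NN n E) _ (fun p hp => (mem_filter.1 hp).2) (vv n)
    (fun p _ => vv_pos n p) (fun p hp => ?_) (fun a ha b hb _ => ?_)
    (card_pos.2 ⟨0, zero_mem hE0.le hE⟩)
  · have h := Finset.mem_Ioc.1 (mem_filter.1 hp).1
    exact vv_card hn (mem_filter.1 hp).2 h.1 h.2 _ fun a ha => ((mem_NN hE).1 ha).1
  · have h1 := ((mem_NN hE).1 ha).2
    have h2 := ((mem_NN hE).1 hb).2
    rw [Int.cast_sub]
    have h3 := abs_sub (a : ℝ) b
    linarith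

/-- Few small numerators. -/
theorem few (ε : ℝ) (hε : 0 < ε) : ∀ᶠ n : ℕ in atTop,
    (((NN n (Real.exp (-(29 / 36 + ε) * n))).filter (0 < ·)).card : ℝ) ≤ 1 / (3 * ε) := by
  filter_upwards [asy (ε / 100) (by positivity)] with n hn
  obtain ⟨hn, h2, hL, h1a, h1b, h2a, h2b, h3a, h3b⟩ := hn
  set E : ℝ := Real.exp (-(29 / 36 + ε) * n) with hE
  have hn0 : (0 : ℝ) < n := by
    have : 0 < n := by omega
    exact_mod_cast this
  have hE0 : 0 < E := Real.exp_pos _
  have hE1 : E ≤ 1 := by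
    rw [hE, Real.exp_le_one_iff]
    have : 0 ≤ (29 / 36 + ε) * (n : ℝ) := by positivity
    linarith
  have hLp : (0 : ℝ) < lcmUpto n := by exact_mod_cast lcmUpto_pos n
  have hs := sieve_NN hn hE0 hE1
  have hc := card_NN (n := n) hE0.le hE1
  set Z : ℝ := ((NN n E).card : ℝ) with hZ
  set m : ℕ := ((NN n E).filter (0 < ·)).card with hm
  have hc' : 2 * (m : ℝ) + 1 ≤ Z := by rw [hZ]; exact_mod_cast hc
  have hlog : Real.log (2 * (lcmUpto n * E)) ≤ (7 / 36 - ε + 2 * (ε / 100)) * n := by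
    rw [Real.log_mul (by norm_num) (by positivity), Real.log_mul hLp.ne' hE0.ne', hE,
      Real.log_exp]
    linarith
  have hm0 : (0 : ℝ) ≤ m := Nat.cast_nonneg _
  have hZ1 : 1 ≤ Z := by linarith
  have hs2 : SL n 3 * (Z / 21 - 1) + SL n 2 * (Z / 7 - 1) + SL n 1 * (Z / 3 - 1) ≤
      (Z - 1) * ((7 / 36 - ε + 2 * (ε / 100)) * n) :=
    hs.trans (mul_le_mul_of_nonneg_left hlog (by linarith))
  have e1 : (1 / 12 - 2 * (ε / 100)) * n * (Z / 21) ≤ SL n 3 * (Z / 21) :=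
    mul_le_mul_of_nonneg_right h3a (by positivity)
  have e2 : (1 / 6 - 2 * (ε / 100)) * n * (Z / 7) ≤ SL n 2 * (Z / 7) :=
    mul_le_mul_of_nonneg_right h2a (by positivity)
  have e3 : (1 / 2 - 2 * (ε / 100)) * n * (Z / 3) ≤ SL n 1 * (Z / 3) :=
    mul_le_mul_of_nonneg_right h1a (by positivity)
  have e4 : (Z * (ε - 4 * (ε / 100)) - (5 / 9 + ε + 4 * (ε / 100))) * n ≤ 0 := by
    have e5 : 0 ≤ (ε / 100) * n * Z := by positivity
    nlinarith
  have e6 : Z * (ε - 4 * (ε / 100)) - (5 / 9 + ε + 4 * (ε / 100)) ≤ 0 := by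
    by_contra h
    push Not at h
    have := mul_pos h hn0
    linarith
  have e7 : (2 * (m : ℝ) + 1) * (ε - 4 * (ε / 100)) ≤ Z * (ε - 4 * (ε / 100)) :=
    mul_le_mul_of_nonneg_right hc' (by linarith)
  rw [le_div_iff₀ (by positivity)]
  by_cases hε1 : ε ≤ 1
  · nlinarith
  · push Not at hε1
    rcases Nat.eq_zero_or_pos m with h0 | h0
    · rw [h0]
      simp
    · exfalso
      have h0' : (1 : ℝ) ≤ m := by exact_mod_cast h0
      nlinarith

/-- For every `ε > 0` and all large `n`, at most `1/(3ε)` values in `(0, e^{-(29/36+ε)n}]` are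
absolute values of signed sums of `1, 1/2, ..., 1/n`. -/
theorem main (ε : ℝ) (hε : 0 < ε) : ∃ N : ℕ, ∀ n : ℕ, N ≤ n →
    {x : ℝ | 0 < x ∧ x ≤ Real.exp (-(29 / 36 + ε) * n) ∧ ∃ δ : ℕ → ℤ, Adm δ ∧ x = |S n δ|}.Finite ∧
    ({x : ℝ | 0 < x ∧ x ≤ Real.exp (-(29 / 36 + ε) * n) ∧
      ∃ δ : ℕ → ℤ, Adm δ ∧ x = |S n δ|}.ncard : ℝ) ≤ 1 / (3 * ε) := by
  classical
  obtain ⟨N, hN⟩ := eventually_atTop.1 (few ε hε)
  refine ⟨N, fun n hn => ?_⟩
  have hf := hN n hn
  set E : ℝ := Real.exp (-(29 / 36 + ε) * n) with hE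
  have hE1 : E ≤ 1 := by
    rw [hE, Real.exp_le_one_iff]
    have : 0 ≤ (29 / 36 + ε) * (n : ℝ) := by positivity
    linarith
  have hLp : (0 : ℝ) < lcmUpto n := by exact_mod_cast lcmUpto_pos n
  have hsub : {x : ℝ | 0 < x ∧ x ≤ E ∧ ∃ δ : ℕ → ℤ, Adm δ ∧ x = |S n δ|} ⊆
      (((NN n E).filter (0 < ·)).image fun a : ℤ => (a : ℝ) / lcmUpto n : Finset ℝ) := by
    rintro x ⟨hx0, hxE, δ, hδ, hx⟩
    have key : ∀ δ' : ℕ → ℤ, Adm δ' → x = S n δ' →
        x ∈ (((NN n E).filter (0 < ·)).image fun a : ℤ => (a : ℝ) / lcmUpto n : Finset ℝ) := by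
      intro δ' hδ' hx'
      have hA := A_eq n δ'
      rw [← hx'] at hA
      rw [mem_image]
      refine ⟨A n δ', ?_, ?_⟩
      · rw [mem_filter, mem_NN hE1]
        refine ⟨⟨⟨δ', hδ', rfl⟩, ?_⟩, ?_⟩
        · rw [hA, abs_of_pos (by positivity)]
          exact mul_le_mul_of_nonneg_left hxE hLp.le
        · have : (0 : ℝ) < A n δ' := by rw [hA]; positivity
          exact_mod_cast this
      · rw [hA]
        field_simp
    rcases abs_choice (S n δ) with h | h
    · exact key δ hδ (hx.trans h)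
    · refine key (fun k => -δ k) (fun k => ?_) ?_
      · rcases hδ k with h1 | h1 | h1 <;> simp [h1]
      · rw [hx, h]
        simp [S, neg_div, sum_neg_distrib]
  refine ⟨(Finset.finite_toSet _).subset hsub, ?_⟩
  refine le_trans ?_ hf
  have h1 := Set.ncard_le_ncard hsub (Finset.finite_toSet _)
  rw [Set.ncard_coe_finset] at h1
  exact_mod_cast h1.trans card_image_le

end Pool.Agent.Helper86.FS
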